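import Pool.Agent.H227R3.Urn.Chain
import Pool.Agent.H227R3.Urn.Exist

/-!
# Monopoly can fail for interacting urns with full interaction

There is a strong reinforcement sequence `W` for which the system of `d = 4` interacting urns with
interaction parameter `p = 1` fails to have monopoly: for every `ε > 0` there is a deterministic
initial composition from which monopoly has probability at most `ε`.
-/

open MeasureTheory
open scoped ENNReal BigOperators
open Pool.Agent.H227R3.Urn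

universe v

namespace Pool.Agent.Results.MP_0b3b8e_pr.MonopolyFails

theorem result : ∃ W : ℕ → ℝ, Strong W ∧ ∀ ε : ℝ, 0 < ε →
    ∃ B₀ R₀ : Fin 4 → ℕ, 1 ≤ (∑ i, B₀ i) + ∑ i, R₀ i ∧
      (∃ (Ω : Type) (_ : MeasurableSpace Ω) (μ : Measure Ω) (_ : IsProbabilityMeasure μ)
        (B R : ℕ → Ω → Fin 4 → ℕ), IsUrnProcess W B₀ R₀ μ B R) ∧
      ∀ (Ω : Type v) [MeasurableSpace Ω] (μ : Measure Ω) [IsProbabilityMeasure μ]
        (B R : ℕ → Ω → Fin 4 → ℕ), IsUrnProcess W B₀ R₀ μ B R →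
          μ (Monopoly B R) ≤ ENNReal.ofReal ε := by
  refine ⟨Wf, Wf_strong, fun ε hε => ?_⟩
  obtain ⟨k₀, hk₀⟩ := exists_pow_lt_of_lt_one hε (by norm_num : (1 / 2 : ℝ) < 1)
  set k := max k₀ 3 with hk
  have hk3 : 3 ≤ k := le_max_right _ _
  have hkε : (1 / 2 : ℝ) ^ k ≤ ε :=
    (pow_le_pow_of_le_one (by norm_num) (by norm_num) (le_max_left _ _)).trans hk₀.le
  let B₀ : Fin 4 → ℕ := ![4 * 2 ^ k + 2 * ((k + 1) % 2), 0, 0, 0]
  let R₀ : Fin 4 → ℕ := ![4 * 2 ^ k + 2 * ((k + 1) % 2) + 1, 0, 0, 0]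
  have hB : ∑ i, B₀ i = 4 * 2 ^ k + 2 * ((k + 1) % 2) := by
    simp [B₀, Fin.sum_univ_four]
  have hR : ∑ i, R₀ i = 4 * 2 ^ k + 2 * ((k + 1) % 2) + 1 := by
    simp [R₀, Fin.sum_univ_four]
  refine ⟨B₀, R₀, by rw [hB, hR]; omega, ?_, ?_⟩
  · exact ⟨ℕ × Fin 4 → ℝ, inferInstance, Pm 4, inferInstance, Bc Wf B₀ R₀, Rc Wf B₀ R₀,
      exists_process Wf B₀ R₀ (fun n => (Wf_pos n).le)⟩
  · intro Ω _ μ _ B R h
    calc μ (Monopoly B R) ≤ μ (⋃ n, Bad Good B R 0 n) :=
          measure_mono (monopoly_subset Good 16 (by norm_num) Good_bound B R)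
      _ ≤ ENNReal.ofReal ((1 / 2) ^ k) := by
          apply bound_bad h (fun n => (Wf_pos n).le) Good
          intro n
          rw [hB, hR]
          exact start k hk3 n
      _ ≤ ENNReal.ofReal ε := ENNReal.ofReal_le_ofReal hkε

end Pool.Agent.Results.MP_0b3b8e_pr.MonopolyFails
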